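import Mathlib
import Pool.Agent.Helper95.RV.Digest
import Pool.Agent.Helper95.RV.Inst

/-!
# Conversations have normal forms

What the clerk of the vertex `c` knows about the instance `mk x y w` is `x` and the row `c` of `w`;
what Bob knows is `x` and `y`.
-/

namespace Pool.Agent.Helper71.RV

open Pool.Agent.Helper22.ETModel Pool.Agent.Helper8.VT Pool.Agent.Helper5.RV
  Pool.Agent.Helper95.RV

variable {n m : ℕ}

/-- the clerk of `c` knows `x` and the row `c` of `w` only -/
theorem clerk_view (x : Cls n 0 × Cls n 1 → Fin m) (y y' : Cls n 1 × Cls n 2 → Fin m)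
    (w w' : Cls n 0 → Cls n 2 → Fin (2 * m)) (c : Cls n 0) (hw : w c = w' c) :
    clerkView (c : Fin n) (wts x y w) = clerkView (c : Fin n) (wts x y' w') := by
  have hc := c.2
  funext u v
  unfold clerkView
  by_cases h : Side 1 2 u v ∨ (Side 0 2 u v ∧ u ≠ c ∧ v ≠ c)
  · rw [if_pos h, if_pos h]
  · rw [if_neg h, if_neg h]
    obtain ⟨h1, h2⟩ := not_or.1 h
    unfold Side at h1 h2
    have h3 : ¬ ((u : ℕ) % 3 = 1 ∧ (v : ℕ) % 3 = 2) := by omega
    have h4 : ¬ ((u : ℕ) % 3 = 2 ∧ (v : ℕ) % 3 = 1) := by omega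
    unfold wts
    simp only [dif_neg h3, dif_neg h4]
    have e1 : ∀ h : (u : ℕ) % 3 = 0 ∧ (v : ℕ) % 3 = 2, w ⟨u, h.1⟩ = w' ⟨u, h.1⟩ := by
      intro h5
      have hu : u = (c : Fin n) := by
        by_contra hne
        refine h2 ⟨Or.inl h5, hne, fun hv => ?_⟩
        rw [hv, hc] at h5
        exact absurd h5.2 (by norm_num)
      subst hu
      exact hw
    have e2 : ∀ h : (u : ℕ) % 3 = 2 ∧ (v : ℕ) % 3 = 0, w ⟨v, h.2⟩ = w' ⟨v, h.2⟩ := by
      intro h5
      have hv : v = (c : Fin n) := by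
        by_contra hne
        refine h2 ⟨Or.inr h5, fun hu => ?_, hne⟩
        rw [hu, hc] at h5
        exact absurd h5.1 (by norm_num)
      subst hv
      exact hw
    by_cases k1 : (u : ℕ) % 3 = 0 ∧ (v : ℕ) % 3 = 1
    · simp only [dif_pos k1]
    by_cases k2 : (u : ℕ) % 3 = 1 ∧ (v : ℕ) % 3 = 0
    · simp only [dif_neg k1, dif_pos k2]
    by_cases k3 : (u : ℕ) % 3 = 0 ∧ (v : ℕ) % 3 = 2
    · simp only [dif_neg k1, dif_neg k2, dif_pos k3, e1 k3]
    by_cases k4 : (u : ℕ) % 3 = 2 ∧ (v : ℕ) % 3 = 0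
    · simp only [dif_neg k1, dif_neg k2, dif_neg k3, dif_pos k4, e2 k4]
    · simp only [dif_neg k1, dif_neg k2, dif_neg k3, dif_neg k4]

/-- Conversations of Bob and a clerk have normal forms with one message. -/
theorem nform_conv {a b : ℕ} (hm0 : 0 < m) (hm : 2 * m ≤ n ^ 300) (H : Inst n → ℝ)
    (h : IsConv a b H) : NForm m (b * 2 ^ a) (fun x y w => H (mk (n := n) x y w)) := by
  classical
  obtain ⟨c, hc, P, hP⟩ := h
  let fl : Flags n := fun u v => decide ((u : ℕ) % 3 ≠ (v : ℕ) % 3)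
  let y₀ : Cls n 1 × Cls n 2 → Fin m := fun _ => ⟨0, hm0⟩
  let w₀ : Cls n 0 → Cls n 2 → Fin (2 * m) := fun _ _ => ⟨0, by omega⟩
  obtain ⟨ms, vt, e⟩ := digest (P fl)
  let c' : Cls n 0 := ⟨c, hc⟩
  have key : ∀ x y w, H (mk x y w) =
      vt (clerkView c (wts x y₀ fun _ => w c')) (ms (bobView (wts x y w₀))) := by
    intro x y w
    have h1 := hP (mk x y w) (mk_valid hm x y w)
    have h2 : (P (mk x y w).flag).eval (clerkView c (wts x y w)) (bobView (wts x y w)) =
        vt (clerkView c (wts x y w)) (ms (bobView (wts x y w))) := e _ _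
    have h3 : clerkView c (wts x y w) = clerkView c (wts x y₀ fun _ => w c') :=
      clerk_view x y y₀ w (fun _ => w c') c' rfl
    have h4 : bobView (wts x y w) = bobView (wts x y w₀) := hide_02 x y w w₀
    rw [h1]
    refine h2.trans ?_
    rw [h3, h4]
  refine ⟨fun _ _ => 0, fun _ _ => 0, fun _ _ => 0, fun i => if i = c' then b * 2 ^ a else 0,
    fun i x z r => if i = c' then vt (clerkView c (wts x y₀ fun _ => r))
      ⟨(z : ℕ) % 2 ^ (b * 2 ^ a), Nat.mod_lt _ (by positivity)⟩ else 0,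
    fun i x y => if hl : (ms (bobView (wts x y w₀)) : ℕ) < 2 ^ (if i = c' then b * 2 ^ a else 0)
      then ⟨(ms (bobView (wts x y w₀)) : ℕ), hl⟩ else ⟨0, by positivity⟩, ?_, fun x y w => ?_⟩
  · rw [Finset.sum_ite_eq' Finset.univ c' (fun _ => b * 2 ^ a), if_pos (Finset.mem_univ _)]
  · rw [Finset.sum_eq_single c']
    · have hlt : (ms (bobView (wts x y w₀)) : ℕ) < 2 ^ (if c' = c' then b * 2 ^ a else 0) := by
        rw [if_pos rfl]; exact (ms (bobView (wts x y w₀))).isLt
      simp only [if_true, zero_add]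
      rw [key x y w]
      congr 1
      apply Fin.ext
      have h5 := (ms (bobView (wts x y w₀))).isLt
      simp only [dif_pos h5]
      exact (Nat.mod_eq_of_lt h5).symm
    · intro i _ hi
      simp only [if_neg hi]
    · intro h; exact absurd (Finset.mem_univ _) h

end Pool.Agent.Helper71.RV
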